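import Mathlib

open Filter Topology

namespace Pool.Agent.Results.MP_2c9a54_an.Classification

/-- `x n` is the term with index `n - 1` of the problem. -/
def IsSol {k : ℕ} (B : ZMod k → ℝ) (x : ℕ → ℝ) : Prop :=
  0 < x 0 ∧ 0 < x 1 ∧ ∀ n : ℕ, x (n + 2) = 1 / (B (n : ZMod k) * x (n + 1) + x n)

/-- The transfer map on triples (position, large value, reciprocal of the preceding value). -/
noncomputable def step {k : ℕ} (B : ZMod k → ℝ) (s : ZMod k × ℝ × ℝ) : ZMod k × ℝ × ℝ :=
  if B s.1 = 0 then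
    (s.1 + 4, 1 / (B (s.1 + 3) / s.2.2 + 1 / (B (s.1 + 1) * s.2.2 + s.2.1)), s.2.2)
  else (s.1 + 3, B s.1 / (1 + B s.1 * B (s.1 + 2)) * s.2.1, s.2.1)

def Contracting {k : ℕ} (B : ZMod k → ℝ) : Prop :=
  (∀ m : ZMod k, ∃ j : ℕ, B (m + 4 * j) ≠ 0) ∧
  ∀ m : ZMod k, B m ≠ 0 → ∀ j : ℕ, 1 ≤ j → j ≤ k → ((step B)^[j] (m, 1, 1)).1 = m →
    ((step B)^[j] (m, 1, 1)).2.1 < 1

def Interlaced {k : ℕ} (B : ZMod k → ℝ) : Prop :=
  ∃ m : ZMod k, (∀ j : ℕ, B (m + 2 * j) = 0) ∧ (∃ j : ℕ, B (m + 1 + 4 * j) ≠ 0) ∧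
    (∃ j : ℕ, B (m + 3 + 4 * j) ≠ 0)

section basics

variable {k : ℕ} {B : ZMod k → ℝ}

theorem step_zero {m : ZMod k} (L M : ℝ) (h : B m = 0) :
    step B (m, L, M) = (m + 4, 1 / (B (m + 3) / M + 1 / (B (m + 1) * M + L)), M) := by
  simp [step, h]

theorem step_pos {m : ZMod k} (L M : ℝ) (h : B m ≠ 0) :
    step B (m, L, M) = (m + 3, B m / (1 + B m * B (m + 2)) * L, L) := by
  simp [step, h]

theorem sol_pos (hB : ∀ m, 0 ≤ B m) {x : ℕ → ℝ} (h : IsSol B x) : ∀ n, 0 < x n := by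
  have key : ∀ n, 0 < x n ∧ 0 < x (n + 1) := by
    intro n
    induction n with
    | zero => exact ⟨h.1, h.2.1⟩
    | succ n ih =>
      refine ⟨ih.2, ?_⟩
      rw [h.2.2 n]
      have := mul_nonneg (hB (n : ZMod k)) ih.2.le
      have := ih.1
      positivity
  exact fun n => (key n).1

theorem sol_rel (hB : ∀ m, 0 ≤ B m) {x : ℕ → ℝ} (h : IsSol B x) (n : ℕ) :
    x (n + 2) * (B (n : ZMod k) * x (n + 1) + x n) = 1 := by
  have h1 := sol_pos hB h n
  have h2 := sol_pos hB h (n + 1)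
  have h3 := mul_nonneg (hB (n : ZMod k)) h2.le
  rw [h.2.2 n, one_div, inv_mul_cancel₀]
  positivity

theorem sol_inv (hB : ∀ m, 0 ≤ B m) {x : ℕ → ℝ} (h : IsSol B x) (n : ℕ) :
    1 / x (n + 2) = B (n : ZMod k) * x (n + 1) + x n := by
  have h1 := sol_pos hB h (n + 2)
  rw [div_eq_iff h1.ne', mul_comm]
  exact (sol_rel hB h n).symm

/-- existence of a solution -/
theorem exists_sol (B : ZMod k → ℝ) : ∃ x, IsSol B x := by
  let p : ℕ → ℝ × ℝ := fun n => Nat.rec (1, 1)
    (fun n q => (q.2, 1 / (B (n : ZMod k) * q.2 + q.1))) n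
  refine ⟨fun n => (p n).1, by simp [p], by simp [p], fun n => ?_⟩
  rfl

/-! ### order and homogeneity of `step` -/

def Le (s t : ZMod k × ℝ × ℝ) : Prop :=
  s.1 = t.1 ∧ 0 < s.2.1 ∧ 0 < s.2.2 ∧ s.2.1 ≤ t.2.1 ∧ s.2.2 ≤ t.2.2

def Lt (s t : ZMod k × ℝ × ℝ) : Prop :=
  s.1 = t.1 ∧ 0 < s.2.1 ∧ 0 < s.2.2 ∧ s.2.1 < t.2.1 ∧ s.2.2 ≤ t.2.2

theorem Le.trans {s t u : ZMod k × ℝ × ℝ} (h1 : Le s t) (h2 : Le t u) : Le s u :=
  ⟨h1.1.trans h2.1, h1.2.1, h1.2.2.1, h1.2.2.2.1.trans h2.2.2.2.1, h1.2.2.2.2.trans h2.2.2.2.2⟩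

theorem r_pos (hB : ∀ m, 0 ≤ B m) {m : ZMod k} (h : B m ≠ 0) :
    0 < B m / (1 + B m * B (m + 2)) := by
  have h1 : 0 < B m := lt_of_le_of_ne (hB m) (Ne.symm h)
  have h2 := hB (m + 2)
  positivity

theorem step_le (hB : ∀ m, 0 ≤ B m) {s t : ZMod k × ℝ × ℝ} (h : Le s t) :
    Le (step B s) (step B t) := by
  obtain ⟨m, L, M⟩ := s
  obtain ⟨m', L', M'⟩ := t
  obtain ⟨h1, h2, h3, h4, h5⟩ := h
  simp only at h1 h2 h3 h4 h5
  subst h1
  by_cases hm : B m = 0
  · rw [step_zero _ _ hm, step_zero _ _ hm]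
    have ha := hB (m + 3)
    have hb := hB (m + 1)
    have h6 : 0 < L' := by linarith
    have h7 : 0 < M' := by linarith
    refine ⟨rfl, by positivity, h3, ?_, h5⟩
    simp only
    apply one_div_le_one_div_of_le (by positivity)
    apply add_le_add
    · exact div_le_div_of_nonneg_left ha h3 h5
    · apply one_div_le_one_div_of_le (by positivity)
      nlinarith
  · rw [step_pos _ _ hm, step_pos _ _ hm]
    have hr := r_pos hB hm
    exact ⟨rfl, mul_pos hr h2, h2, mul_le_mul_of_nonneg_left h4 hr.le, h4⟩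

theorem step_lt (hB : ∀ m, 0 ≤ B m) {s t : ZMod k × ℝ × ℝ} (h : Lt s t) :
    Lt (step B s) (step B t) := by
  obtain ⟨m, L, M⟩ := s
  obtain ⟨m', L', M'⟩ := t
  obtain ⟨h1, h2, h3, h4, h5⟩ := h
  simp only at h1 h2 h3 h4 h5
  subst h1
  by_cases hm : B m = 0
  · rw [step_zero _ _ hm, step_zero _ _ hm]
    have ha := hB (m + 3)
    have hb := hB (m + 1)
    have h6 : 0 < L' := by linarith
    have h7 : 0 < M' := by linarith
    refine ⟨rfl, by positivity, h3, ?_, h5⟩
    simp only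
    apply one_div_lt_one_div_of_lt (by positivity)
    apply add_lt_add_of_le_of_lt
    · exact div_le_div_of_nonneg_left ha h3 h5
    · apply one_div_lt_one_div_of_lt (by positivity)
      nlinarith
  · rw [step_pos _ _ hm, step_pos _ _ hm]
    have hr := r_pos hB hm
    exact ⟨rfl, mul_pos hr h2, h2, mul_lt_mul_of_pos_left h4 hr, h4.le⟩

theorem iter_lt (hB : ∀ m, 0 ≤ B m) (j : ℕ) {s t : ZMod k × ℝ × ℝ} (h : Lt s t) :
    Lt ((step B)^[j] s) ((step B)^[j] t) := by
  induction j generalizing s t with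
  | zero => exact h
  | succ j ih =>
    rw [Function.iterate_succ_apply, Function.iterate_succ_apply]
    exact ih (step_lt hB h)

def scale (c : ℝ) (s : ZMod k × ℝ × ℝ) : ZMod k × ℝ × ℝ := (s.1, c * s.2.1, c * s.2.2)

theorem step_scale (hB : ∀ m, 0 ≤ B m) {c : ℝ} (hc : 0 < c) {s : ZMod k × ℝ × ℝ}
    (h2 : 0 < s.2.1) (h3 : 0 < s.2.2) :
    step B (scale c s) = scale c (step B s) := by
  obtain ⟨m, L, M⟩ := s
  simp only at h2 h3
  by_cases hm : B m = 0
  · simp only [scale]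
    rw [step_zero _ _ hm, step_zero _ _ hm]
    have ha := hB (m + 3)
    have hb := hB (m + 1)
    have h4 : 0 < B (m + 1) * M + L := by positivity
    have h5 : 0 < B (m + 3) / M + 1 / (B (m + 1) * M + L) := by positivity
    have h6 : B (m + 3) / (c * M) + 1 / (B (m + 1) * (c * M) + c * L) =
        (B (m + 3) / M + 1 / (B (m + 1) * M + L)) / c := by
      rw [show B (m + 1) * (c * M) + c * L = c * (B (m + 1) * M + L) by ring]
      field_simp
    rw [h6]
    simp only [Prod.mk.injEq, true_and, and_true]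
    rw [one_div_div, mul_one_div]
  · simp only [scale]
    rw [step_pos _ _ hm, step_pos _ _ hm]
    simp only [Prod.mk.injEq, true_and, and_true]
    ring

theorem iter_pos (hB : ∀ m, 0 ≤ B m) (j : ℕ) {s : ZMod k × ℝ × ℝ}
    (h2 : 0 < s.2.1) (h3 : 0 < s.2.2) :
    0 < ((step B)^[j] s).2.1 ∧ 0 < ((step B)^[j] s).2.2 := by
  induction j generalizing s with
  | zero => exact ⟨h2, h3⟩
  | succ j ih =>
    rw [Function.iterate_succ_apply]
    have := step_le hB (s := s) (t := s) ⟨rfl, h2, h3, le_rfl, le_rfl⟩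
    exact ih this.2.1 this.2.2.1

theorem iter_scale (hB : ∀ m, 0 ≤ B m) {c : ℝ} (hc : 0 < c) (j : ℕ) {s : ZMod k × ℝ × ℝ}
    (h2 : 0 < s.2.1) (h3 : 0 < s.2.2) :
    (step B)^[j] (scale c s) = scale c ((step B)^[j] s) := by
  induction j generalizing s with
  | zero => rfl
  | succ j ih =>
    rw [Function.iterate_succ_apply, Function.iterate_succ_apply, step_scale hB hc h2 h3]
    have := step_le hB (s := s) (t := s) ⟨rfl, h2, h3, le_rfl, le_rfl⟩
    exact ih this.2.1 this.2.2.1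

/-- From a position with `B m ≠ 0` the orbit depends only on `L`. -/
theorem iter_from_pos (hB : ∀ m, 0 ≤ B m) {m : ZMod k} (hm : B m ≠ 0) {L M : ℝ} (hL : 0 < L)
    {j : ℕ} (hj : 1 ≤ j) :
    (step B)^[j] (m, L, M) = scale L ((step B)^[j] (m, 1, 1)) := by
  obtain ⟨j, rfl⟩ : ∃ i, j = i + 1 := ⟨j - 1, by omega⟩
  rw [Function.iterate_succ_apply, Function.iterate_succ_apply, step_pos _ _ hm, step_pos _ _ hm]
  have hr := r_pos hB hm
  have := iter_scale hB hL j (s := (m + 3, B m / (1 + B m * B (m + 2)) * 1, 1))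
    (by simp only; positivity) (by simp only; positivity)
  rw [← this]
  congr 1
  simp only [scale, Prod.mk.injEq, true_and]
  constructor <;> ring

/-- first components evolve autonomously -/
theorem iter_fst (j : ℕ) {s t : ZMod k × ℝ × ℝ} (h : s.1 = t.1) :
    ((step B)^[j] s).1 = ((step B)^[j] t).1 := by
  induction j generalizing s t with
  | zero => exact h
  | succ j ih =>
    rw [Function.iterate_succ_apply, Function.iterate_succ_apply]
    apply ih
    simp only [step]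
    rw [h]
    split_ifs <;> rfl

/-! ### domination of the solution by the homogeneous maps -/

noncomputable def st (x : ℕ → ℝ) (n : ℕ) : ZMod k × ℝ × ℝ := ((n : ZMod k), x (n + 1), 1 / x n)

theorem dom_step (hB : ∀ m, 0 ≤ B m) {x : ℕ → ℝ} (h : IsSol B x) (n : ℕ) :
    ∃ n', n < n' ∧ Le (step B (st x n)) (st x n') := by
  have p0 := sol_pos hB h n
  have p1 := sol_pos hB h (n + 1)
  have p2 := sol_pos hB h (n + 2)
  have p3 := sol_pos hB h (n + 3)
  have p4 := sol_pos hB h (n + 4)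
  have i2 := sol_inv hB h n
  have i3 := sol_inv hB h (n + 1)
  have i4 := sol_inv hB h (n + 2)
  have b0 := hB (n : ZMod k)
  have b1 := hB ((n : ZMod k) + 1)
  have b2 := hB ((n : ZMod k) + 2)
  have b3 := hB ((n : ZMod k) + 3)
  push_cast at i3 i4
  have q3 : x (n + 3) ≤ 1 / x (n + 1) := by
    rw [le_div_iff₀ p1, mul_comm, ← le_div_iff₀ p3, i3]
    have := mul_nonneg b1 p2.le
    linarith
  by_cases hm : B (n : ZMod k) = 0
  · refine ⟨n + 4, by omega, ?_⟩
    have i5 := sol_inv hB h (n + 3)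
    push_cast at i5
    have p5 := sol_pos hB h (n + 5)
    have e2 : x (n + 2) = 1 / x n := by
      rw [h.2.2 n, hm]; simp
    have e3 : x (n + 3) = 1 / (B ((n : ZMod k) + 1) * (1 / x n) + x (n + 1)) := by
      have := h.2.2 (n + 1)
      push_cast at this
      rw [this, e2]
    have e4 : 1 / x n ≤ 1 / x (n + 4) := by
      rw [i4, ← e2]
      have := mul_nonneg b2 p3.le
      linarith
    have e4' : x (n + 4) ≤ x n := by
      rwa [one_div_le_one_div p0 p4] at e4
    unfold st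
    rw [step_zero _ _ hm]
    refine ⟨by push_cast; rfl, by simp only; positivity, by simp only; positivity, ?_, e4⟩
    simp only
    rw [div_le_iff₀ (by positivity), ← div_le_iff₀' p5]
    rw [i5, ← e3, div_div_eq_mul_div, div_one]
    have := mul_le_mul_of_nonneg_left e4' b3
    linarith
  · refine ⟨n + 3, by omega, ?_⟩
    have hpos : 0 < B (n : ZMod k) := lt_of_le_of_ne b0 (Ne.symm hm)
    unfold st
    rw [step_pos _ _ hm]
    refine ⟨by push_cast; rfl, by simp only; positivity, p1, ?_, ?_⟩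
    · simp only
      have q2 : x (n + 2) ≤ 1 / (B (n : ZMod k) * x (n + 1)) := by
        rw [h.2.2 n]
        apply one_div_le_one_div_of_le (by positivity)
        linarith
      have q4 : 1 / x (n + 4) ≤ (1 + B (n : ZMod k) * B ((n : ZMod k) + 2)) /
          (B (n : ZMod k) * x (n + 1)) := by
        rw [i4]
        calc B ((n : ZMod k) + 2) * x (n + 3) + x (n + 2)
            ≤ B ((n : ZMod k) + 2) * (1 / x (n + 1)) + 1 / (B (n : ZMod k) * x (n + 1)) :=
              add_le_add (mul_le_mul_of_nonneg_left q3 b2) q2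
          _ = _ := by field_simp; ring
      rw [one_div, inv_le_comm₀ p4 (by positivity), inv_div] at q4
      calc B (n : ZMod k) / (1 + B (n : ZMod k) * B ((n : ZMod k) + 2)) * x (n + 1)
          = B (n : ZMod k) * x (n + 1) / (1 + B (n : ZMod k) * B ((n : ZMod k) + 2)) := by ring
        _ ≤ _ := q4
    · simp only
      rw [i3]
      have := mul_nonneg b1 p2.le
      linarith

theorem dom_iter (hB : ∀ m, 0 ≤ B m) {x : ℕ → ℝ} (h : IsSol B x) (j : ℕ) :
    ∀ (s : ZMod k × ℝ × ℝ) (n : ℕ), Le s (st x n) →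
      ∃ n', n ≤ n' ∧ Le ((step B)^[j] s) (st x n') := by
  induction j with
  | zero => exact fun s n hs => ⟨n, le_rfl, hs⟩
  | succ j ih =>
    intro s n hs
    obtain ⟨n1, h1, h2⟩ := dom_step hB h n
    obtain ⟨n2, h3, h4⟩ := ih (step B s) n1 ((step_le hB hs).trans h2)
    rw [Function.iterate_succ_apply]
    exact ⟨n2, by omega, h4⟩

end basics

section necessity

variable {k : ℕ} [NeZero k] {B : ZMod k → ℝ}

theorem B_bdd (B : ZMod k → ℝ) : ∃ β : ℝ, 0 ≤ β ∧ ∀ m, B m ≤ β := by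
  obtain ⟨β, hβ⟩ := (Set.finite_range B).bddAbove
  exact ⟨max β 0, le_max_right _ _, fun m => (hβ ⟨m, rfl⟩).trans (le_max_left _ _)⟩

theorem lower_bound (hB : ∀ m, 0 ≤ B m) {x : ℕ → ℝ} (h : IsSol B x) {C : ℝ}
    (hC : ∀ n, x n ≤ C) : ∃ c : ℝ, 0 < c ∧ ∀ n, c ≤ x (n + 2) := by
  obtain ⟨β, hβ0, hβ⟩ := B_bdd B
  have hCpos : 0 < C := lt_of_lt_of_le h.1 (hC 0)
  refine ⟨1 / (β * C + C), by positivity, fun n => ?_⟩
  rw [h.2.2 n]
  have p0 := sol_pos hB h n
  have p1 := sol_pos hB h (n + 1)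
  have b0 := hB (n : ZMod k)
  apply one_div_le_one_div_of_le (by positivity)
  exact add_le_add (mul_le_mul (hβ _) (hC _) p1.le hβ0) (hC _)

theorem strict_step (hB : ∀ m, 0 ≤ B m) {x : ℕ → ℝ} (h : IsSol B x) {C c : ℝ}
    (hC : ∀ n, x n ≤ C) (hc : 0 < c) (hc' : ∀ n, c ≤ x (n + 2)) {m : ZMod k} (hm : B m ≠ 0) :
    ∃ r', B m / (1 + B m * B (m + 2)) < r' ∧ ∀ n : ℕ, (n : ZMod k) = m → 2 ≤ n →
      Le (m + 3, r' * x (n + 1), x (n + 1)) (st x (n + 3)) := by
  have hCpos : 0 < C := lt_of_lt_of_le h.1 (hC 0)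
  have b0 : 0 < B m := lt_of_le_of_ne (hB m) (Ne.symm hm)
  have b2 := hB (m + 2)
  obtain ⟨b', hb'⟩ : ∃ b', b' = B m + c / C := ⟨_, rfl⟩
  have hcC : 0 < c / C := by positivity
  have hb'0 : 0 < b' := by rw [hb']; positivity
  refine ⟨b' / (1 + b' * B (m + 2)), ?_, ?_⟩
  · rw [div_lt_div_iff₀ (by positivity) (by positivity)]
    nlinarith
  · intro n hn hn2
    have p0 := sol_pos hB h n
    have p1 := sol_pos hB h (n + 1)
    have p2 := sol_pos hB h (n + 2)
    have p3 := sol_pos hB h (n + 3)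
    have p4 := sol_pos hB h (n + 4)
    have i2 := sol_inv hB h n
    have i3 := sol_inv hB h (n + 1)
    have i4 := sol_inv hB h (n + 2)
    push_cast at i3 i4
    rw [hn] at i2 i3 i4
    have b1 := hB (m + 1)
    have q3 : x (n + 3) ≤ 1 / x (n + 1) := by
      rw [le_div_iff₀ p1, mul_comm, ← le_div_iff₀ p3, i3]
      have := mul_nonneg b1 p2.le
      linarith
    refine ⟨by simp only [st]; push_cast; rw [hn], by simp only; positivity, p1, ?_, ?_⟩
    · simp only [st]
      have hcn : c ≤ x n := by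
        obtain ⟨i, rfl⟩ : ∃ i, n = i + 2 := ⟨n - 2, by omega⟩
        exact hc' i
      have q2 : x (n + 2) ≤ 1 / (b' * x (n + 1)) := by
        rw [le_div_iff₀ (by positivity), mul_comm, ← le_div_iff₀ p2, i2, hb', add_mul]
        have : c / C * x (n + 1) ≤ c := by
          rw [div_mul_eq_mul_div, div_le_iff₀ hCpos]
          exact mul_le_mul_of_nonneg_left (hC _) hc.le
        linarith
      have q4 : 1 / x (n + 4) ≤ (1 + b' * B (m + 2)) / (b' * x (n + 1)) := by
        rw [i4]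
        calc B (m + 2) * x (n + 3) + x (n + 2)
            ≤ B (m + 2) * (1 / x (n + 1)) + 1 / (b' * x (n + 1)) :=
              add_le_add (mul_le_mul_of_nonneg_left q3 b2) q2
          _ = _ := by field_simp; ring
      rw [one_div, inv_le_comm₀ p4 (by positivity), inv_div] at q4
      calc b' / (1 + b' * B (m + 2)) * x (n + 1)
          = b' * x (n + 1) / (1 + b' * B (m + 2)) := by ring
        _ ≤ _ := q4
    · simp only [st]
      rw [i3]
      have := mul_nonneg b1 p2.le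
      linarith

theorem exists_index (m : ZMod k) : ∃ n : ℕ, 2 ≤ n ∧ (n : ZMod k) = m := by
  have hk : 1 ≤ k := NeZero.one_le
  refine ⟨m.val + k * 2, by omega, ?_⟩
  push_cast
  rw [ZMod.natCast_zmod_val, ZMod.natCast_self]
  ring

theorem unbdd_of_cycle (hB : ∀ m, 0 ≤ B m) {x : ℕ → ℝ} (h : IsSol B x) {m : ZMod k}
    (hm : B m ≠ 0) {j : ℕ} (hj : 1 ≤ j) (hcyc : ((step B)^[j] (m, 1, 1)).1 = m)
    (hg : 1 ≤ ((step B)^[j] (m, 1, 1)).2.1) : ¬ BddAbove (Set.range x) := by
  rintro ⟨C, hC0⟩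
  have hC : ∀ n, x n ≤ C := fun n => hC0 ⟨n, rfl⟩
  obtain ⟨c, hc, hc'⟩ := lower_bound hB h hC
  obtain ⟨r', hr', hstep⟩ := strict_step hB h hC hc hc' hm
  have hr := r_pos hB hm
  obtain ⟨i, rfl⟩ : ∃ i, j = i + 1 := ⟨j - 1, by omega⟩
  rw [Function.iterate_succ_apply, step_pos _ _ hm, mul_one] at hcyc hg
  have hlt := iter_lt hB i (s := (m + 3, B m / (1 + B m * B (m + 2)), 1)) (t := (m + 3, r', 1))
    ⟨rfl, hr, by norm_num, hr', le_rfl⟩
  obtain ⟨ρ, hρ⟩ : ∃ ρ, ρ = ((step B)^[i] (m + 3, r', 1)).2.1 := ⟨_, rfl⟩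
  have hρ1 : 1 < ρ := by
    rw [hρ]
    exact lt_of_le_of_lt hg hlt.2.2.2.1
  have hcyc' : ((step B)^[i] (m + 3, r', 1)).1 = m := by rw [← hlt.1]; exact hcyc
  have key : ∀ n : ℕ, (n : ZMod k) = m → 2 ≤ n → ∃ n' : ℕ, (n' : ZMod k) = m ∧ 2 ≤ n' ∧
      ρ * x (n + 1) ≤ x (n' + 1) := by
    intro n hn hn2
    have p1 := sol_pos hB h (n + 1)
    obtain ⟨n', h1, h2⟩ := dom_iter hB h i _ _ (hstep n hn hn2)
    have h3 := iter_scale hB p1 i (s := (m + 3, r', 1)) (by simp only; linarith)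
      (by norm_num)
    have h4 : scale (x (n + 1)) ((m + 3, r', 1) : ZMod k × ℝ × ℝ) =
        (m + 3, r' * x (n + 1), x (n + 1)) := by
      simp only [scale, Prod.mk.injEq, true_and]
      constructor <;> ring
    rw [h4] at h3
    rw [h3] at h2
    refine ⟨n', ?_, by omega, ?_⟩
    · have := h2.1
      simp only [scale, st] at this
      rw [← this, hcyc']
    · have := h2.2.2.2.1
      simp only [scale, st] at this
      rw [← hρ] at this
      linarith
  obtain ⟨n0, hn02, hn0⟩ := exists_index m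
  have iter : ∀ N : ℕ, ∃ n : ℕ, (n : ZMod k) = m ∧ 2 ≤ n ∧ ρ ^ N * x (n0 + 1) ≤ x (n + 1) := by
    intro N
    induction N with
    | zero => exact ⟨n0, hn0, hn02, by simp⟩
    | succ N ih =>
      obtain ⟨n, h1, h2, h3⟩ := ih
      obtain ⟨n', h4, h5, h6⟩ := key n h1 h2
      refine ⟨n', h4, h5, ?_⟩
      calc ρ ^ (N + 1) * x (n0 + 1) = ρ * (ρ ^ N * x (n0 + 1)) := by ring
        _ ≤ ρ * x (n + 1) := mul_le_mul_of_nonneg_left h3 (by linarith)
        _ ≤ _ := h6
  have p1 := sol_pos hB h (n0 + 1)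
  obtain ⟨N, hN⟩ := pow_unbounded_of_one_lt (C / x (n0 + 1)) hρ1
  obtain ⟨n, -, -, h3⟩ := iter N
  rw [div_lt_iff₀ p1] at hN
  linarith [hC (n + 1)]

theorem zero_class (hB : ∀ m, 0 ≤ B m) {x : ℕ → ℝ} (h : IsSol B x)
    (hbd : BddAbove (Set.range x)) {m : ZMod k} (hz : ∀ j : ℕ, B (m + 4 * j) = 0) :
    B (m + 2) = 0 := by
  by_contra hne
  have hpos : 0 < B (m + 2) := lt_of_le_of_ne (hB _) (Ne.symm hne)
  obtain ⟨C, hC0⟩ := hbd
  have hC : ∀ n, x n ≤ C := fun n => hC0 ⟨n, rfl⟩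
  obtain ⟨c, hc, hc'⟩ := lower_bound hB h hC
  obtain ⟨n0, hn02, hn0⟩ := exists_index m
  have hk : 1 ≤ k := NeZero.one_le
  have e1 : ∀ a : ℕ, x (n0 + 4 * (a + 1) + 2) =
      x (n0 + 4 * a + 2) + B (m + 4 * a + 2) * x (n0 + 4 * a + 3) := by
    intro a
    have h1 := sol_inv hB h (n0 + 4 * a + 2)
    have h2 := h.2.2 (n0 + 4 * (a + 1))
    have h3 : ((n0 + 4 * (a + 1) : ℕ) : ZMod k) = m + 4 * ((a + 1 : ℕ) : ZMod k) := by
      push_cast; rw [hn0]
    rw [h3, hz, zero_mul, zero_add] at h2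
    rw [h2, show n0 + 4 * (a + 1) = n0 + 4 * a + 2 + 2 by ring, h1]
    have h4 : ((n0 + 4 * a + 2 : ℕ) : ZMod k) = m + 4 * a + 2 := by
      push_cast; rw [hn0]
    rw [h4]
    ring
  have mono : Monotone (fun a : ℕ => x (n0 + 4 * a + 2)) := by
    apply monotone_nat_of_le_succ
    intro a
    have := e1 a
    have h1 := mul_nonneg (hB (m + 4 * a + 2)) (sol_pos hB h (n0 + 4 * a + 3)).le
    linarith
  have e2 : ∀ i : ℕ, (i : ℝ) * (B (m + 2) * c) ≤ x (n0 + 4 * (k * i) + 2) := by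
    intro i
    induction i with
    | zero => simp; exact (sol_pos hB h _).le
    | succ i ih =>
      have h1 := e1 (k * i)
      have h2 : (m + 4 * ((k * i : ℕ) : ZMod k) + 2) = m + 2 := by
        push_cast; rw [ZMod.natCast_self]; ring
      rw [h2] at h1
      have h3 : B (m + 2) * c ≤ B (m + 2) * x (n0 + 4 * (k * i) + 3) :=
        mul_le_mul_of_nonneg_left (hc' (n0 + 4 * (k * i) + 1)) hpos.le
      have h4 := mono (show k * i + 1 ≤ k * (i + 1) by rw [mul_add]; omega)
      simp only at h4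
      push_cast
      linarith
  obtain ⟨i, hi⟩ := exists_nat_gt (C / (B (m + 2) * c))
  rw [div_lt_iff₀ (by positivity)] at hi
  linarith [e2 i, hC (n0 + 4 * (k * i) + 2)]

theorem necessity (hB : ∀ m, 0 ≤ B m) (hne : ∃ m, B m ≠ 0) {x : ℕ → ℝ} (hx : IsSol B x)
    (hxb : BddAbove (Set.range x)) : Contracting B ∨ Interlaced B := by
  by_cases hall : ∀ m : ZMod k, ∃ j : ℕ, B (m + 4 * j) ≠ 0
  · left
    refine ⟨hall, fun m hm j hj _ hcyc => ?_⟩
    by_contra hge
    push Not at hge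
    exact unbdd_of_cycle hB hx hm hj hcyc hge hxb
  · right
    push Not at hall
    obtain ⟨m, hm⟩ := hall
    have hz2 : ∀ m : ZMod k, (∀ j : ℕ, B (m + 4 * j) = 0) → ∀ j : ℕ, B (m + 2 + 4 * j) = 0 := by
      intro m hm j
      have := zero_class hB hx hxb (m := m + 4 * j) (fun i => by
        have := hm (j + i)
        push_cast at this
        rw [← this]
        congr 1
        ring)
      rw [← this]
      congr 1
      ring
    have h2 := hz2 m hm
    -- all entries of the form m + a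
    have hrep : ∀ t : ZMod k, ∃ a : ℕ, t = m + a := by
      intro t
      refine ⟨(t - m).val, ?_⟩
      rw [ZMod.natCast_zmod_val]
      ring
    have hcontra : (∀ j : ℕ, B (m + 1 + 4 * j) = 0) → (∀ j : ℕ, B (m + 3 + 4 * j) = 0) → False := by
      intro h1 h3
      obtain ⟨t, ht⟩ := hne
      obtain ⟨a, rfl⟩ := hrep t
      apply ht
      have hcases : a % 4 = 0 ∨ a % 4 = 1 ∨ a % 4 = 2 ∨ a % 4 = 3 := by omega
      have ha := Nat.div_add_mod a 4
      rcases hcases with h0 | h0 | h0 | h0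
      · rw [← hm (a / 4)]; congr 1
        conv_lhs => rw [← ha, h0]
        push_cast; ring
      · rw [← h1 (a / 4)]; congr 1
        conv_lhs => rw [← ha, h0]
        push_cast; ring
      · rw [← h2 (a / 4)]; congr 1
        conv_lhs => rw [← ha, h0]
        push_cast; ring
      · rw [← h3 (a / 4)]; congr 1
        conv_lhs => rw [← ha, h0]
        push_cast; ring
    refine ⟨m, ?_, ?_, ?_⟩
    · intro j
      rcases Nat.even_or_odd' j with ⟨a, rfl | rfl⟩
      · rw [← hm a]; congr 1; push_cast; ring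
      · rw [← h2 a]; congr 1; push_cast; ring
    · by_contra h1
      push Not at h1
      have h3 := hz2 (m + 1) h1
      exact hcontra h1 (fun j => by rw [← h3 j]; congr 1; ring)
    · by_contra h3
      push Not at h3
      have h5 := hz2 (m + 3) h3
      refine hcontra (fun j => ?_) h3
      have h6 := h5 (j + k * 2 - 1)
      have hk : 1 ≤ k := NeZero.one_le
      rw [← h6]
      congr 1
      rw [Nat.cast_sub (by omega)]
      push_cast
      rw [ZMod.natCast_self]
      ring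

end necessity

section limit

/-- relations satisfied by the rescaled limit seen backwards from a sequence of records -/
structure Lim (b U W : ℕ → ℝ) : Prop where
  b0 : ∀ j, 0 ≤ b j
  U0 : ∀ j, 0 ≤ U j
  W0 : ∀ j, 0 ≤ W j
  U1 : ∀ j, U j ≤ 1
  top : U 0 = 1
  r1 : ∀ j, W j = b (j + 1) * U (j + 1) + U (j + 2)
  r2 : ∀ j, U j * (b (j + 1) * W (j + 2) + W (j + 1)) = W (j + 1) * W (j + 2)
  r3 : ∀ j, U j ≤ W (j + 2)
  r3' : ∀ j, b (j + 1) * U j ≤ W (j + 1)
  r4 : ∀ j, b (j + 1) = 0 → U j = W (j + 2)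
  r5 : ∀ j, U j * W j = 0

def Star (b U W : ℕ → ℝ) (j : ℕ) : Prop :=
  0 < U j ∧ b (j + 1) = 0 ∧ U (j + 1) = 0 ∧ W (j + 1) = 0

variable {b U W : ℕ → ℝ}

theorem Lim.W_zero (h : Lim b U W) {j : ℕ} (hU : 0 < U j) : W j = 0 := by
  rcases mul_eq_zero.1 (h.r5 j) with h1 | h1
  · linarith
  · exact h1

theorem Lim.U2_zero (h : Lim b U W) {j : ℕ} (hW : W j = 0) :
    b (j + 1) * U (j + 1) = 0 ∧ U (j + 2) = 0 := by
  have h1 := h.r1 j
  have h2 := mul_nonneg (h.b0 (j + 1)) (h.U0 (j + 1))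
  have h3 := h.U0 (j + 2)
  constructor <;> linarith

theorem Lim.star_step (h : Lim b U W) {j : ℕ} (hs : Star b U W j) :
    Star b U W (j + 4) := by
  obtain ⟨hU, hb, hU1, hW1⟩ := hs
  have a1 := (h.U2_zero (h.W_zero hU)).2
  have a2 : U (j + 3) = 0 := (h.U2_zero hW1).2
  have a3 : W (j + 2) = U (j + 4) := by
    have := h.r1 (j + 2)
    rw [show j + 2 + 1 = j + 3 by ring, show j + 2 + 2 = j + 4 by ring, a2] at this
    linarith
  have a4 : U j = W (j + 2) := h.r4 j hb
  have a5 : 0 < U (j + 4) := by rw [← a3, ← a4]; exact hU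
  have a6 : W (j + 3) = 0 := by
    have := h.r2 (j + 1)
    rw [show j + 1 + 1 = j + 2 by ring, show j + 1 + 2 = j + 3 by ring, hU1, zero_mul] at this
    rcases mul_eq_zero.1 this.symm with h1 | h1
    · rw [h1] at a3; linarith
    · exact h1
  have a7 := h.U2_zero a6
  rw [show j + 3 + 1 = j + 4 by ring, show j + 3 + 2 = j + 5 by ring] at a7
  have a8 : b (j + 4) = 0 := by
    rcases mul_eq_zero.1 a7.1 with h1 | h1
    · exact h1
    · linarith
  have a9 : W (j + 5) = 0 := by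
    have := h.r4 (j + 3) a8
    rw [show j + 3 + 2 = j + 5 by ring] at this
    rw [← this, a2]
  have a10 : b (j + 5) = 0 := by
    have := h.r3' (j + 4)
    rw [show j + 4 + 1 = j + 5 by ring, a9] at this
    have h1 := mul_nonneg (h.b0 (j + 5)) (h.U0 (j + 4))
    rcases mul_eq_zero.1 (le_antisymm this h1) with h2 | h2
    · exact h2
    · linarith
  exact ⟨a5, a10, a7.2, a9⟩

theorem Lim.star_iter (h : Lim b U W) {j : ℕ} (hs : Star b U W j) (i : ℕ) :
    Star b U W (j + 4 * i) := by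
  induction i with
  | zero => exact hs
  | succ i ih =>
    have := h.star_step ih
    rw [show j + 4 * (i + 1) = j + 4 * i + 4 by ring]
    exact this

theorem Lim.claim1 (h : Lim b U W) {j : ℕ} (hU : 0 < U j) (hns : ¬ Star b U W j) :
    0 < W (j + 1) ∨ (0 < U (j + 1) ∧ 0 < W (j + 2) ∧ b (j + 1) = 0) := by
  rcases (h.W0 (j + 1)).eq_or_lt with h1 | h1
  · right
    have h2 : b (j + 1) = 0 := by
      have h3 := h.r3' j
      rw [← h1] at h3
      have h4 := mul_nonneg (h.b0 (j + 1)) hU.le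
      rcases mul_eq_zero.1 (le_antisymm h3 h4) with h5 | h5
      · exact h5
      · linarith
    refine ⟨?_, by have := h.r3 j; linarith, h2⟩
    rcases (h.U0 (j + 1)).eq_or_lt with h3 | h3
    · exact (hns ⟨hU, h2, h3.symm, h1.symm⟩).elim
    · exact h3
  · left; exact h1

theorem Lim.claim2 (h : Lim b U W) {j : ℕ} (hU : 0 < U j) (hW : 0 < W (j + 1))
    (hns : ¬ Star b U W (j + 3)) :
    (b (j + 3) ≠ 0 ∧ 0 < U (j + 3) ∧ 0 < W (j + 4) ∧
      U j = b (j + 3) / (1 + b (j + 3) * b (j + 1)) * U (j + 3) ∧ W (j + 1) = U (j + 3)) ∨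
    (b (j + 4) = 0 ∧ 0 < U (j + 4) ∧ 0 < W (j + 5) ∧
      U j = 1 / (b (j + 1) / W (j + 5) + 1 / (b (j + 3) * W (j + 5) + U (j + 4))) ∧
      W (j + 1) = W (j + 5)) := by
  have a1 : U (j + 2) = 0 := (h.U2_zero (h.W_zero hU)).2
  have a2 : W (j + 1) = U (j + 3) := by
    have := h.r1 (j + 1)
    rw [show j + 1 + 1 = j + 2 by ring, show j + 1 + 2 = j + 3 by ring, a1] at this
    linarith
  have a3 : 0 < U (j + 3) := by rw [← a2]; exact hW
  have a4 : 0 < W (j + 2) := by have := h.r3 j; linarith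
  have a5 := h.r2 j
  have a6 := h.r1 (j + 2)
  rw [show j + 2 + 1 = j + 3 by ring, show j + 2 + 2 = j + 4 by ring] at a6
  have b1 := h.b0 (j + 1)
  have b3 := h.b0 (j + 3)
  rcases h.claim1 a3 hns with h1 | ⟨h1, h2, h3⟩
  · left
    rw [show j + 3 + 1 = j + 4 by ring] at h1
    have c1 : U (j + 4) = 0 := by
      rcases mul_eq_zero.1 (h.r5 (j + 4)) with h2 | h2
      · exact h2
      · linarith
    rw [c1, add_zero] at a6
    have c2 : b (j + 3) ≠ 0 := by
      intro h2
      rw [h2, zero_mul] at a6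
      linarith
    refine ⟨c2, a3, h1, ?_, a2⟩
    rw [a6, a2] at a5
    have c3 : 0 < 1 + b (j + 3) * b (j + 1) := by positivity
    rw [div_mul_eq_mul_div, eq_div_iff c3.ne']
    have c4 : (U j * (1 + b (j + 3) * b (j + 1))) * U (j + 3) =
        (b (j + 3) * U (j + 3)) * U (j + 3) := by linarith
    exact mul_right_cancel₀ a3.ne' c4
  · right
    rw [show j + 3 + 1 = j + 4 by ring] at h1 h3
    rw [show j + 3 + 2 = j + 5 by ring] at h2
    have c1 : U (j + 3) = W (j + 5) := h.r4 (j + 3) h3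
    refine ⟨h3, h1, h2, ?_, a2.trans c1⟩
    rw [← c1, ← a6, eq_div_iff (by positivity)]
    rw [a2] at a5
    field_simp
    linarith

end limit

section abstract_chain

variable {k : ℕ} [NeZero k] {B : ZMod k → ℝ}

/-- A set of states with bounded large component which is covered by its own image under `step`
is impossible when `B` is contracting. -/
theorem no_backward (hB : ∀ m, 0 ≤ B m) (hc : Contracting B) (S : Set (ZMod k × ℝ × ℝ))
    (hne : S.Nonempty) (hpos : ∀ s ∈ S, 0 < s.2.1 ∧ 0 < s.2.2 ∧ s.2.1 ≤ 1)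
    (hback : ∀ s ∈ S, ∃ t ∈ S, step B t = s) : False := by
  have hk : 1 ≤ k := NeZero.one_le
  -- backward chains
  have hchain : ∀ s ∈ S, ∃ c : ℕ → ZMod k × ℝ × ℝ, c 0 = s ∧ (∀ i, c i ∈ S) ∧
      ∀ i, step B (c (i + 1)) = c i := by
    intro s hs
    choose! f hf1 hf2 using hback
    have hf3 : ∀ i, f^[i] s ∈ S := by
      intro i
      induction i with
      | zero => exact hs
      | succ i ih => rw [Function.iterate_succ_apply']; exact hf1 _ ih
    refine ⟨fun i => f^[i] s, rfl, hf3, ?_⟩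
    intro i
    change step B (f^[i + 1] s) = f^[i] s
    rw [Function.iterate_succ_apply']
    exact hf2 _ (hf3 i)
  have hiter : ∀ c : ℕ → ZMod k × ℝ × ℝ, (∀ i, step B (c (i + 1)) = c i) →
      ∀ j i, (step B)^[j] (c (i + j)) = c i := by
    intro c hc j
    induction j with
    | zero => intro i; rfl
    | succ j ih =>
      intro i
      rw [Function.iterate_succ_apply, show i + (j + 1) = i + j + 1 by ring, hc, ih]
  -- some element of `S` sits at a nonzero coefficient
  have hP : ∃ s ∈ S, B s.1 ≠ 0 := by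
    by_contra hno
    push Not at hno
    obtain ⟨s, hs⟩ := hne
    obtain ⟨c, h0, h1, h2⟩ := hchain s hs
    have h3 : ∀ i : ℕ, (c i).1 = s.1 - 4 * i := by
      intro i
      induction i with
      | zero => simp [h0]
      | succ i ih =>
        have h4 := h2 i
        have h5 := hno _ (h1 (i + 1))
        have h6 : (step B (c (i + 1))).1 = (c (i + 1)).1 + 4 := by
          simp [step, h5]
        rw [h4, ih] at h6
        push_cast
        linear_combination (-1 : ZMod k) * h6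
    obtain ⟨j, hj⟩ := hc.1 s.1
    apply hj
    have h4 := hno _ (h1 (j * (k - 1)))
    rw [h3] at h4
    rw [← h4]
    congr 1
    rw [Nat.cast_mul, Nat.cast_sub hk, ZMod.natCast_self]
    push_cast
    ring
  -- uniform contraction constant
  obtain ⟨q, hq0, hq1, hq⟩ : ∃ q : ℝ, 0 < q ∧ q < 1 ∧ ∀ m : ZMod k, B m ≠ 0 → ∀ j : ℕ, 1 ≤ j →
      j ≤ k → ((step B)^[j] (m, 1, 1)).1 = m → ((step B)^[j] (m, 1, 1)).2.1 ≤ q := by
    classical
    let G : ZMod k × Fin (k + 1) → ℝ := fun p =>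
      if B p.1 ≠ 0 ∧ 1 ≤ (p.2 : ℕ) ∧ ((step B)^[(p.2 : ℕ)] (p.1, 1, 1)).1 = p.1 then
        ((step B)^[(p.2 : ℕ)] (p.1, 1, 1)).2.1 else 0
    have hG : ∀ p, G p < 1 := by
      intro p
      simp only [G]
      split_ifs with hp
      · exact hc.2 p.1 hp.1 p.2 hp.2.1 (by have := p.2.2; omega) hp.2.2
      · norm_num
    obtain ⟨p0, hp0⟩ := Finite.exists_max G
    refine ⟨max (G p0) (1 / 2), by positivity, max_lt (hG p0) (by norm_num), ?_⟩
    intro m hm j hj1 hj2 hcyc
    have h1 := hp0 (m, ⟨j, by omega⟩)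
    simp only [G] at h1
    rw [if_pos ⟨hm, hj1, hcyc⟩] at h1
    exact h1.trans (le_max_left _ _)
  -- growth backwards
  have hgrow : ∀ s ∈ S, B s.1 ≠ 0 → ∃ t ∈ S, B t.1 ≠ 0 ∧ s.2.1 ≤ q * t.2.1 := by
    intro s hs hsB
    obtain ⟨c, h0, h1, h2⟩ := hchain s hs
    have h3 := hiter c h2
    -- pigeonhole
    obtain ⟨a, ha, a', ha', hne', heq⟩ : ∃ a ∈ Finset.range (k + 1), ∃ a' ∈ Finset.range (k + 1),
        a ≠ a' ∧ (c a).1 = (c a').1 := by
      apply Finset.exists_ne_map_eq_of_card_lt_of_maps_to (t := Finset.univ)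
      · rw [Finset.card_univ, ZMod.card, Finset.card_range]; omega
      · intro i _; exact Finset.mem_univ _
    have hmain : ∀ a a' : ℕ, a < a' → a' ≤ k → (c a).1 = (c a').1 →
        ∃ t ∈ S, B t.1 ≠ 0 ∧ s.2.1 ≤ q * t.2.1 := by
      intro a a' hlt hle heq
      have h4 : (c 0).1 = (c (a' - a)).1 := by
        have h5 := h3 a 0
        have h6 := h3 a (a' - a)
        rw [zero_add] at h5
        rw [show a' - a + a = a' by omega] at h6
        rw [← h5, ← h6]
        exact iter_fst a heq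
      refine ⟨c (a' - a), h1 _, by rw [← h4, h0]; exact hsB, ?_⟩
      have h5 := h3 (a' - a) 0
      rw [zero_add, h0] at h5
      obtain ⟨hL, hM, -⟩ := hpos _ (h1 (a' - a))
      have h6 : c (a' - a) = (s.1, (c (a' - a)).2.1, (c (a' - a)).2.2) := by
        rw [← h0, h4]
      have h7 := iter_from_pos hB hsB (M := (c (a' - a)).2.2) hL
        (show 1 ≤ a' - a by omega)
      rw [← h6, h5] at h7
      have h8 : ((step B)^[a' - a] (s.1, 1, 1)).1 = s.1 := by
        have := congrArg Prod.fst h7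
        simp only [scale] at this
        exact this.symm
      have h9 := hq s.1 hsB (a' - a) (by omega) (by omega) h8
      have h10 : s.2.1 = (c (a' - a)).2.1 * ((step B)^[a' - a] (s.1, 1, 1)).2.1 := by
        have := congrArg (fun p => p.2.1) h7
        simp only [scale] at this
        exact this
      rw [h10, mul_comm q]
      exact mul_le_mul_of_nonneg_left h9 hL.le
    simp only [Finset.mem_range] at ha ha'
    rcases Nat.lt_or_gt_of_ne hne' with h4 | h4
    · exact hmain a a' h4 (by omega) heq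
    · exact hmain a' a h4 (by omega) heq.symm
  obtain ⟨s, hs, hsB⟩ := hP
  have hN : ∀ N : ℕ, ∃ t ∈ S, B t.1 ≠ 0 ∧ s.2.1 ≤ q ^ N * t.2.1 := by
    intro N
    induction N with
    | zero => exact ⟨s, hs, hsB, by simp⟩
    | succ N ih =>
      obtain ⟨t, h1, h2, h3⟩ := ih
      obtain ⟨u, h4, h5, h6⟩ := hgrow t h1 h2
      refine ⟨u, h4, h5, ?_⟩
      calc s.2.1 ≤ q ^ N * t.2.1 := h3
        _ ≤ q ^ N * (q * u.2.1) := mul_le_mul_of_nonneg_left h6 (by positivity)
        _ = _ := by ring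
  obtain ⟨N, hNN⟩ := exists_pow_lt_of_lt_one (hpos s hs).1 hq1
  obtain ⟨t, h1, -, h3⟩ := hN N
  have h4 := (hpos t h1).2.2
  have h5 : q ^ N * t.2.1 ≤ q ^ N := by
    have : 0 < q ^ N := by positivity
    nlinarith
  linarith

end abstract_chain

section sufficiency

variable {k : ℕ} [NeZero k] {B : ZMod k → ℝ}

theorem exists_records {x : ℕ → ℝ} (hx : ¬ BddAbove (Set.range x)) (i : ℕ) :
    ∃ N : ℕ, i ≤ N ∧ (i : ℝ) + 1 ≤ x N ∧ ∀ n ≤ N, x n ≤ x N := by
  obtain ⟨a, _, ha⟩ := Finset.exists_max_image (Finset.range (i + 1)) x ⟨0, by simp⟩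
  obtain ⟨_, ⟨n, rfl⟩, hn⟩ := not_bddAbove_iff.1 hx (max (x a) (i + 1))
  obtain ⟨N, hN1, hN⟩ := Finset.exists_max_image (Finset.range (n + 1)) x ⟨0, by simp⟩
  have h1 : x n ≤ x N := hN n (by simp)
  have h2 : x a < x n := lt_of_le_of_lt (le_max_left _ _) hn
  have h3 : (i : ℝ) + 1 < x n := lt_of_le_of_lt (le_max_right _ _) hn
  refine ⟨N, ?_, by linarith, fun n' hn' => hN n' ?_⟩
  · by_contra hlt
    push Not at hlt
    have := ha N (by simp; omega)
    linarith
  · simp at hN1 ⊢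
    omega

theorem exists_lim (hB : ∀ m, 0 ≤ B m) {x : ℕ → ℝ} (h : IsSol B x)
    (hx : ¬ BddAbove (Set.range x)) :
    ∃ (R : ZMod k) (U W : ℕ → ℝ), Lim (fun j => B (R - j - 1)) U W := by
  choose N hN1 hN2 hN3 using exists_records hx
  let F : Ultrafilter ℕ := Filter.hyperfilter ℕ
  have hF : (F : Filter ℕ) ≤ atTop := Nat.hyperfilter_le_atTop
  obtain ⟨R, hR⟩ := Ultrafilter.eq_pure_of_finite (F.map (fun i => (N i : ZMod k)))
  have hR' : ∀ᶠ i in (F : Filter ℕ), (N i : ZMod k) = R := by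
    have h1 : ({R} : Set (ZMod k)) ∈ F.map (fun i => (N i : ZMod k)) := by
      rw [hR]; exact Set.mem_singleton R
    exact h1
  have hpos := sol_pos hB h
  have hL1 : ∀ i, 1 ≤ x (N i) := fun i => by
    have := hN2 i
    have h2 : (0 : ℝ) ≤ i := Nat.cast_nonneg i
    linarith
  have hbig : ∀ j : ℕ, ∀ᶠ i in (F : Filter ℕ), j ≤ N i := by
    intro j
    apply hF
    filter_upwards [eventually_ge_atTop j] with i hi
    exact hi.trans (hN1 i)
  have ev : ∀ j : ℕ, ∀ᶠ i in (F : Filter ℕ), ∃ n : ℕ, N i - j = n + 2 ∧ N i - (j + 1) = n + 1 ∧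
      N i - (j + 2) = n ∧ B (n : ZMod k) = B (R - ((j + 1 : ℕ) : ZMod k) - 1) := by
    intro j
    filter_upwards [hbig (j + 2), hR'] with i h1 h2
    refine ⟨N i - (j + 2), by omega, by omega, rfl, ?_⟩
    congr 1
    rw [Nat.cast_sub h1, h2]
    push_cast
    ring
  obtain ⟨β, hβ0, hβ⟩ := B_bdd B
  let u : ℕ → ℕ → ℝ := fun j i => x (N i - j) / x (N i)
  let w : ℕ → ℕ → ℝ := fun j i => 1 / (x (N i - j) * x (N i))
  have hu : ∀ j, ∃ a ∈ Set.Icc (0 : ℝ) 1, Tendsto (u j) F (𝓝 a) := by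
    intro j
    apply isCompact_Icc.ultrafilter_le_nhds (F.map (u j))
    rw [le_principal_iff]
    change ∀ᶠ i in (F : Filter ℕ), u j i ∈ Set.Icc (0 : ℝ) 1
    filter_upwards with i
    exact ⟨div_nonneg (hpos _).le (hpos _).le,
      (div_le_one (hpos _)).2 (hN3 i _ (Nat.sub_le _ _))⟩
  have hw : ∀ j, ∃ a ∈ Set.Icc (0 : ℝ) (β + 1), Tendsto (w j) F (𝓝 a) := by
    intro j
    apply isCompact_Icc.ultrafilter_le_nhds (F.map (w j))
    rw [le_principal_iff]
    change ∀ᶠ i in (F : Filter ℕ), w j i ∈ Set.Icc (0 : ℝ) (β + 1)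
    filter_upwards [ev j] with i hi
    obtain ⟨n, h1, h2, h3, -⟩ := hi
    have p := hpos (N i)
    have p' := hpos (N i - j)
    refine ⟨by simp only [w]; positivity, ?_⟩
    simp only [w]
    rw [← div_div, div_le_iff₀ p, h1, sol_inv hB h n, ← h2, ← h3, add_mul, one_mul]
    apply add_le_add
    · exact mul_le_mul (hβ _) (hN3 i _ (Nat.sub_le _ _)) (hpos _).le hβ0
    · exact hN3 i _ (Nat.sub_le _ _)
  choose U hU1 hU2 using hu
  choose W hW1 hW2 using hw
  have hinf : Tendsto (fun i => 1 / (x (N i)) ^ 2) F (𝓝 0) := by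
    have h1 : Tendsto (fun i : ℕ => 1 / ((i : ℝ) + 1)) F (𝓝 0) :=
      tendsto_one_div_add_atTop_nhds_zero_nat.mono_left hF
    refine squeeze_zero (fun i => by have := hpos (N i); positivity) (fun i => ?_) h1
    have h2 : (0 : ℝ) < (i : ℝ) + 1 := by positivity
    apply one_div_le_one_div_of_le h2
    have := hL1 i
    nlinarith [hN2 i]
  refine ⟨R, U, W, ?_⟩
  refine ⟨fun j => hB _, fun j => (hU1 j).1, fun j => (hW1 j).1, fun j => (hU1 j).2, ?_, ?_, ?_,
    ?_, ?_, ?_, ?_⟩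
  · refine tendsto_nhds_unique (hU2 0) ?_
    refine tendsto_const_nhds.congr (fun i => ?_)
    simp only [u]
    rw [Nat.sub_zero, div_self (hpos _).ne']
  · intro j
    refine tendsto_nhds_unique (hW2 j)
      ((((hU2 (j + 1)).const_mul (B (R - ((j + 1 : ℕ) : ZMod k) - 1))).add
        (hU2 (j + 2))).congr' ?_)
    filter_upwards [ev j] with i hi
    obtain ⟨n, h1, h2, h3, h4⟩ := hi
    have p := hpos (N i)
    simp only [u, w]
    rw [← div_div, h1, sol_inv hB h n, h2, h3, ← h4]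
    ring
  · intro j
    refine tendsto_nhds_unique
      ((hU2 j).mul (((hW2 (j + 2)).const_mul (B (R - ((j + 1 : ℕ) : ZMod k) - 1))).add
        (hW2 (j + 1)))) (((hW2 (j + 1)).mul (hW2 (j + 2))).congr' ?_)
    filter_upwards [ev j] with i hi
    obtain ⟨n, h1, h2, h3, h4⟩ := hi
    have p := hpos (N i)
    have p0 := hpos n
    have p1 := hpos (n + 1)
    have hrel := sol_rel hB h n
    simp only [u, w]
    rw [h1, h2, h3, ← h4]
    field_simp
    linarith
  · intro j
    refine le_of_tendsto_of_tendsto (hU2 j) (hW2 (j + 2)) ?_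
    filter_upwards [ev j] with i hi
    obtain ⟨n, h1, h2, h3, h4⟩ := hi
    have p := hpos (N i)
    have p0 := hpos n
    have p1 := hpos (n + 1)
    have p2 := hpos (n + 2)
    have hrel := sol_rel hB h n
    have hb := mul_nonneg (hB (n : ZMod k)) p1.le
    simp only [u, w]
    rw [h1, h3, div_le_div_iff₀ p (by positivity)]
    have : x (n + 2) * x n ≤ 1 := by nlinarith
    nlinarith
  · intro j
    refine le_of_tendsto_of_tendsto ((hU2 j).const_mul (B (R - ((j + 1 : ℕ) : ZMod k) - 1)))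
      (hW2 (j + 1)) ?_
    filter_upwards [ev j] with i hi
    obtain ⟨n, h1, h2, h3, h4⟩ := hi
    have p := hpos (N i)
    have p0 := hpos n
    have p1 := hpos (n + 1)
    have p2 := hpos (n + 2)
    have hrel := sol_rel hB h n
    simp only [u, w]
    rw [h1, h2, ← h4, mul_div_assoc', div_le_div_iff₀ p (by positivity)]
    have : B (n : ZMod k) * x (n + 2) * x (n + 1) ≤ 1 := by nlinarith [mul_pos p2 p0]
    nlinarith
  · intro j hj
    refine tendsto_nhds_unique (hU2 j) ((hW2 (j + 2)).congr' ?_)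
    filter_upwards [ev j] with i hi
    obtain ⟨n, h1, h2, h3, h4⟩ := hi
    have p := hpos (N i)
    have p0 := hpos n
    simp only [u, w]
    have h5 := h.2.2 n
    rw [h4, hj, zero_mul, zero_add] at h5
    rw [h1, h3, h5, div_div]
  · intro j
    refine tendsto_nhds_unique ((hU2 j).mul (hW2 j)) (hinf.congr (fun i => ?_))
    have p := hpos (N i)
    have p0 := hpos (N i - j)
    simp only [u, w]
    field_simp

theorem suff_contracting (hB : ∀ m, 0 ≤ B m) (hc : Contracting B) {x : ℕ → ℝ}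
    (h : IsSol B x) : BddAbove (Set.range x) := by
  by_contra hx
  obtain ⟨R, U, W, hl⟩ := exists_lim hB h hx
  have hk : 1 ≤ k := NeZero.one_le
  have hns : ∀ j, ¬ Star (fun j : ℕ => B (R - (j : ZMod k) - 1)) U W j := by
    intro j hs
    obtain ⟨i, hi⟩ := hc.1 (R - ((j + 1 : ℕ) : ZMod k) - 1)
    apply hi
    have h1 := (hl.star_iter hs (i * (k - 1))).2.1
    simp only at h1
    rw [← h1]
    congr 1
    push_cast
    rw [Nat.cast_sub hk, ZMod.natCast_self]
    push_cast
    ring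
  let V : ℕ → ZMod k × ℝ × ℝ := fun j => (R - (j : ZMod k) - 1, U j, W (j + 1))
  let S : Set (ZMod k × ℝ × ℝ) := {s | ∃ j, 0 < U j ∧ 0 < W (j + 1) ∧ s = V j}
  refine no_backward hB hc S ?_ ?_ ?_
  · have h0 : 0 < U 0 := by rw [hl.top]; norm_num
    rcases hl.claim1 h0 (hns 0) with h1 | ⟨h1, h2, -⟩
    · exact ⟨V 0, 0, h0, h1, rfl⟩
    · exact ⟨V 1, 1, h1, h2, rfl⟩
  · rintro s ⟨j, h1, h2, rfl⟩
    exact ⟨h1, h2, hl.U1 j⟩
  · rintro s ⟨j, h1, h2, rfl⟩
    rcases hl.claim2 h1 h2 (hns (j + 3)) with ⟨g1, g2, g3, g4, g5⟩ | ⟨g1, g2, g3, g4, g5⟩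
    · refine ⟨V (j + 3), ⟨j + 3, g2, g3, rfl⟩, ?_⟩
      simp only [V]
      rw [step_pos _ _ g1, g4, g5]
      simp only [Prod.mk.injEq, and_true]
      have e1 : R - ((j + 3 : ℕ) : ZMod k) - 1 + 3 = R - (j : ZMod k) - 1 := by
        push_cast; ring
      have e2 : R - ((j + 3 : ℕ) : ZMod k) - 1 + 2 = R - ((j + 1 : ℕ) : ZMod k) - 1 := by
        push_cast; ring
      rw [e1, e2]
      exact ⟨rfl, rfl⟩
    · refine ⟨V (j + 4), ⟨j + 4, g2, g3, rfl⟩, ?_⟩
      simp only [V]
      rw [step_zero _ _ g1, g4, g5]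
      have e1 : R - ((j + 4 : ℕ) : ZMod k) - 1 + 4 = R - (j : ZMod k) - 1 := by
        push_cast; ring
      have e2 : R - ((j + 4 : ℕ) : ZMod k) - 1 + 3 = R - ((j + 1 : ℕ) : ZMod k) - 1 := by
        push_cast; ring
      have e3 : R - ((j + 4 : ℕ) : ZMod k) - 1 + 1 = R - ((j + 3 : ℕ) : ZMod k) - 1 := by
        push_cast; ring
      rw [e1, e2, e3]

end sufficiency

section interlaced

variable {k : ℕ} [NeZero k] {B : ZMod k → ℝ}

omit [NeZero k] in
theorem bdd_of_reset (hk : 1 ≤ k) {y : ℕ → ℝ} {D K : ℝ} (hD : 0 ≤ D)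
    (h1 : ∀ i, y (i + 1) ≤ y i + D) (i0 : ℕ) (h2 : ∀ q, y (i0 + k * q + 1) ≤ K) :
    ∃ C, ∀ i, y i ≤ C := by
  have h3 : ∀ i s : ℕ, y (i + s) ≤ y i + s * D := by
    intro i s
    induction s with
    | zero => simp
    | succ s ih =>
      have := h1 (i + s)
      rw [show i + (s + 1) = i + s + 1 by ring]
      push_cast
      linarith
  refine ⟨max (y 0 + (i0 + 1) * D) (K + k * D), fun i => ?_⟩
  rcases Nat.lt_or_ge i (i0 + 1) with hi | hi
  · apply le_max_of_le_left
    have h4 := h3 0 i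
    rw [zero_add] at h4
    have h5 : (i : ℝ) * D ≤ (i0 + 1) * D := by
      apply mul_le_mul_of_nonneg_right _ hD
      have : (i : ℝ) ≤ ((i0 + 1 : ℕ) : ℝ) := Nat.cast_le.2 hi.le
      push_cast at this
      exact this
    linarith
  · apply le_max_of_le_right
    have h4 := Nat.div_add_mod (i - (i0 + 1)) k
    have h5 := Nat.mod_lt (i - (i0 + 1)) (show 0 < k by omega)
    have h6 := h3 (i0 + k * ((i - (i0 + 1)) / k) + 1) ((i - (i0 + 1)) % k)
    rw [show i0 + k * ((i - (i0 + 1)) / k) + 1 + (i - (i0 + 1)) % k = i by omega] at h6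
    have h7 := h2 ((i - (i0 + 1)) / k)
    have h8 : (((i - (i0 + 1)) % k : ℕ) : ℝ) * D ≤ k * D := by
      apply mul_le_mul_of_nonneg_right _ hD
      exact Nat.cast_le.2 h5.le
    linarith

theorem suff_interlaced (hB : ∀ m, 0 ≤ B m) (hc : Interlaced B) {x : ℕ → ℝ}
    (h : IsSol B x) : BddAbove (Set.range x) := by
  obtain ⟨m, hz, ⟨j1, hj1⟩, ⟨j3, hj3⟩⟩ := hc
  obtain ⟨β, hβ0, hβ⟩ := B_bdd B
  obtain ⟨n0, hn02, hn0⟩ := exists_index m
  have hk : 1 ≤ k := NeZero.one_le
  have hpos := sol_pos hB h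
  obtain ⟨K, hK⟩ : ∃ K, K = max (x n0) (1 / x n0) := ⟨_, rfl⟩
  have hK0 : 0 < K := by rw [hK]; exact lt_max_of_lt_left (hpos _)
  have heven : ∀ a : ℕ, x (n0 + 2 * a) ≤ K ∧ 1 / x (n0 + 2 * a) ≤ K := by
    intro a
    induction a with
    | zero => rw [hK]; exact ⟨le_max_left _ _, le_max_right _ _⟩
    | succ a ih =>
      have h1 := h.2.2 (n0 + 2 * a)
      have h2 : ((n0 + 2 * a : ℕ) : ZMod k) = m + 2 * a := by push_cast; rw [hn0]
      rw [h2, hz, zero_mul, zero_add] at h1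
      rw [show n0 + 2 * (a + 1) = n0 + 2 * a + 2 by ring, h1, one_div_one_div]
      exact ⟨ih.2, ih.1⟩
  have hinv : ∀ a : ℕ, 1 / x (n0 + 2 * (a + 1) + 1) =
      B (m + 2 * a + 1) * x (n0 + 2 * (a + 1)) + x (n0 + 2 * a + 1) := by
    intro a
    have h1 := sol_inv hB h (n0 + 2 * a + 1)
    have h2 : ((n0 + 2 * a + 1 : ℕ) : ZMod k) = m + 2 * a + 1 := by push_cast; rw [hn0]
    rw [h2] at h1
    exact h1
  have hinc : ∀ a : ℕ, x (n0 + 2 * (a + 2) + 1) ≤ x (n0 + 2 * a + 1) + β * K := by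
    intro a
    have h1 := hinv a
    have h2 := hinv (a + 1)
    have p1 := hpos (n0 + 2 * (a + 1) + 1)
    have p2 := hpos (n0 + 2 * (a + 1 + 1) + 1)
    have h3 : x (n0 + 2 * (a + 1) + 1) ≤ 1 / x (n0 + 2 * (a + 1 + 1) + 1) := by
      rw [h2]
      have := mul_nonneg (hB (m + 2 * ((a + 1 : ℕ) : ZMod k) + 1))
        (hpos (n0 + 2 * (a + 1 + 1))).le
      linarith
    rw [le_one_div p1 p2] at h3
    rw [h1] at h3
    have h4 : B (m + 2 * a + 1) * x (n0 + 2 * (a + 1)) ≤ β * K :=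
      mul_le_mul (hβ _) (heven _).1 (hpos _).le hβ0
    linarith
  have hreset : ∀ a : ℕ, B (m + 2 * a + 3) ≠ 0 →
      x (n0 + 2 * (a + 2) + 1) ≤ K / B (m + 2 * a + 3) := by
    intro a ha
    have hp : 0 < B (m + 2 * a + 3) := lt_of_le_of_ne (hB _) (Ne.symm ha)
    have h2 := hinv (a + 1)
    have p2 := hpos (n0 + 2 * (a + 2) + 1)
    have h3 : B (m + 2 * a + 3) / K ≤ 1 / x (n0 + 2 * (a + 2) + 1) := by
      rw [show a + 2 = a + 1 + 1 by ring, h2]
      have e1 : m + 2 * ((a + 1 : ℕ) : ZMod k) + 1 = m + 2 * a + 3 := by push_cast; ring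
      rw [e1]
      have h4 : 1 / K ≤ x (n0 + 2 * (a + 1 + 1)) := by
        rw [one_div_le hK0 (hpos _)]
        exact (heven _).2
      have h5 : B (m + 2 * a + 3) * (1 / K) ≤ B (m + 2 * a + 3) * x (n0 + 2 * (a + 1 + 1)) :=
        mul_le_mul_of_nonneg_left h4 hp.le
      have h6 := hpos (n0 + 2 * (a + 1) + 1)
      rw [mul_one_div] at h5
      linarith
    rw [le_one_div (by positivity) p2, one_div_div] at h3
    exact h3
  have hβK : 0 ≤ β * K := by positivity
  obtain ⟨C0, hC0⟩ := bdd_of_reset (k := k) hk (y := fun i => x (n0 + 2 * (2 * i) + 1)) hβK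
    (fun i => hinc (2 * i)) j3 (K := K / B (m + 3 + 4 * j3)) (fun q => by
      have e : m + 2 * ((2 * (j3 + k * q) : ℕ) : ZMod k) + 3 = m + 3 + 4 * j3 := by
        push_cast; rw [ZMod.natCast_self]; ring
      have := hreset (2 * (j3 + k * q)) (by rw [e]; exact hj3)
      rw [e] at this
      exact this)
  obtain ⟨C1, hC1⟩ := bdd_of_reset (k := k) hk (y := fun i => x (n0 + 2 * (2 * i + 1) + 1)) hβK
    (fun i => hinc (2 * i + 1)) (j1 + k - 1) (K := K / B (m + 1 + 4 * j1)) (fun q => by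
      have e : m + 2 * ((2 * (j1 + k - 1 + k * q) + 1 : ℕ) : ZMod k) + 3 = m + 1 + 4 * j1 := by
        push_cast
        rw [Nat.cast_sub (by omega)]
        push_cast
        rw [ZMod.natCast_self]
        ring
      have := hreset (2 * (j1 + k - 1 + k * q) + 1) (by rw [e]; exact hj1)
      rw [e] at this
      exact this)
  obtain ⟨C2, hC2⟩ := ((Set.finite_lt_nat n0).image x).bddAbove
  refine ⟨max (max C0 C1) (max C2 K), ?_⟩
  rintro _ ⟨n, rfl⟩
  rcases Nat.lt_or_ge n n0 with hn | hn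
  · exact le_max_of_le_right (le_max_of_le_left (hC2 ⟨n, hn, rfl⟩))
  · obtain ⟨d, rfl⟩ : ∃ d, n = n0 + d := ⟨n - n0, by omega⟩
    rcases Nat.even_or_odd' d with ⟨a, rfl | rfl⟩
    · exact le_max_of_le_right (le_max_of_le_right (heven a).1)
    · rcases Nat.even_or_odd' a with ⟨i, rfl | rfl⟩
      · exact le_max_of_le_left (le_max_of_le_left (hC0 i))
      · exact le_max_of_le_left (le_max_of_le_right (hC1 i))

end interlaced

section positive

variable {k : ℕ} {B : ZMod k → ℝ}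

theorem iter_allpos (hp : ∀ m, 0 < B m) (m : ZMod k) (j : ℕ) :
    ((step B)^[j] (m, 1, 1)).1 = m + 3 * j ∧
    ((step B)^[j] (m, 1, 1)).2.1 =
      ∏ i ∈ Finset.range j, B (m + 3 * i) / (1 + B (m + 3 * i) * B (m + 3 * i + 2)) := by
  induction j with
  | zero => simp
  | succ j ih =>
    rw [Function.iterate_succ_apply', Finset.prod_range_succ, ← ih.2]
    have h1 : B ((step B)^[j] (m, 1, 1)).1 ≠ 0 := (hp _).ne'
    simp only [step, if_neg h1]
    rw [ih.1]
    constructor
    · push_cast; ring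
    · rw [mul_comm]

theorem prod_shift {g : ℕ → ℝ} (hg : ∀ i, 0 < g i) (hper : ∀ i, g (i + k) = g i) (s : ℕ) :
    ∏ i ∈ Finset.range k, g (i + s) = ∏ i ∈ Finset.range k, g i := by
  induction s with
  | zero => simp
  | succ s ih =>
    rw [← ih]
    have h1 := Finset.prod_range_succ (fun i => g (i + s)) k
    have h2 := Finset.prod_range_succ' (fun i => g (i + s)) k
    rw [h1] at h2
    simp only [zero_add] at h2
    rw [show g (k + s) = g s by rw [add_comm, hper]] at h2
    have h3 := mul_right_cancel₀ (hg s).ne' h2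
    rw [h3]
    apply Finset.prod_congr rfl
    intro i _
    congr 1
    ring

theorem prod_pow_periodic {g : ℕ → ℝ} {p : ℕ} (hper : ∀ i, g (i + p) = g i) (l : ℕ) :
    ∏ i ∈ Finset.range (p * l), g i = (∏ i ∈ Finset.range p, g i) ^ l := by
  have hper' : ∀ l i, g (p * l + i) = g i := by
    intro l
    induction l with
    | zero => intro i; simp
    | succ l ih =>
      intro i
      rw [show p * (l + 1) + i = (p * l + i) + p by ring, hper, ih]
  induction l with
  | zero => simp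
  | succ l ih =>
    rw [mul_add, mul_one, Finset.prod_range_add, ih, pow_succ]
    congr 1
    apply Finset.prod_congr rfl
    intro i _
    exact hper' l i

theorem allpos_iff [NeZero k] (hp : ∀ m, 0 < B m) :
    (Contracting B ∨ Interlaced B) ↔ (3 ∣ k → ∀ m : ZMod k,
      ∏ i ∈ Finset.range (k / 3), B (m + 3 * i) / (1 + B (m + 3 * i) * B (m + 3 * i + 2)) < 1) := by
  have hk : 1 ≤ k := NeZero.one_le
  constructor
  · rintro (h | h)
    · rintro ⟨p, rfl⟩ m
      have h1 := iter_allpos hp m p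
      rw [Nat.mul_div_cancel_left p (by norm_num), ← h1.2]
      refine h.2 m (hp m).ne' p (by omega) (by omega) ?_
      rw [h1.1]
      have : ((3 * p : ℕ) : ZMod (3 * p)) = 0 := ZMod.natCast_self _
      push_cast at this
      rw [this, add_zero]
    · obtain ⟨m, hm, -⟩ := h
      exact absurd (hm 0) (hp _).ne'
  · intro h
    left
    refine ⟨fun m => ⟨0, (hp _).ne'⟩, fun m _ j hj1 hj2 hcyc => ?_⟩
    have h1 := iter_allpos hp m j
    rw [h1.2]
    rw [h1.1] at hcyc
    have h2 : ((3 * j : ℕ) : ZMod k) = 0 := by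
      push_cast
      linear_combination hcyc
    rw [ZMod.natCast_eq_zero_iff] at h2
    have hr : ∀ t, 0 < B t / (1 + B t * B (t + 2)) := by
      intro t
      have := hp t
      have := hp (t + 2)
      positivity
    by_cases h3 : 3 ∣ k
    · have hm := h h3 m
      obtain ⟨p, rfl⟩ := h3
      rw [Nat.mul_div_cancel_left p (by norm_num)] at hm
      obtain ⟨l, hl⟩ := Nat.dvd_of_mul_dvd_mul_left (by norm_num) h2
      have hper : ∀ i : ℕ, (fun i : ℕ => B (m + 3 * i) / (1 + B (m + 3 * i) * B (m + 3 * i + 2)))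
          (i + p) = (fun i : ℕ => B (m + 3 * i) / (1 + B (m + 3 * i) * B (m + 3 * i + 2))) i := by
        intro i
        have h4 : ((3 * p : ℕ) : ZMod (3 * p)) = 0 := ZMod.natCast_self _
        push_cast at h4
        have h5 : (m : ZMod (3 * p)) + 3 * ((i + p : ℕ) : ZMod (3 * p)) = m + 3 * i := by
          push_cast
          linear_combination h4
        simp only [h5]
      rw [hl, prod_pow_periodic hper l]
      apply pow_lt_one₀ _ hm
      · rintro rfl
        simp at hl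
        omega
      · exact Finset.prod_nonneg (fun i _ => (hr _).le)
    · have hcop : Nat.Coprime 3 k := (Nat.Prime.coprime_iff_not_dvd Nat.prime_three).2 h3
      have h4 : k ∣ j := hcop.symm.dvd_of_dvd_mul_left h2
      have h5 : j = k := le_antisymm hj2 (Nat.le_of_dvd (by omega) h4)
      subst h5
      obtain ⟨s, hs⟩ : ∃ s : ℕ, (3 : ZMod j) * s = 2 := by
        have h6 := ZMod.coe_mul_inv_eq_one 3 hcop
        refine ⟨(2 * ((3 : ℕ) : ZMod j)⁻¹ : ZMod j).val, ?_⟩
        rw [ZMod.natCast_zmod_val]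
        push_cast at h6 ⊢
        linear_combination 2 * h6
      have h7 : ∏ i ∈ Finset.range j, B (m + 3 * i + 2) = ∏ i ∈ Finset.range j, B (m + 3 * i) := by
        rw [← prod_shift (g := fun i : ℕ => B (m + 3 * i)) (fun i => hp _) (fun i => by
          congr 1
          push_cast
          rw [ZMod.natCast_self]
          ring) s]
        apply Finset.prod_congr rfl
        intro i _
        congr 1
        push_cast
        linear_combination (-1 : ZMod j) * hs
      rw [Finset.prod_div_distrib, div_lt_one (Finset.prod_pos (fun i _ => by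
        have := hp (m + 3 * i)
        have := hp (m + 3 * i + 2)
        positivity))]
      apply lt_of_pow_lt_pow_left₀ 2 (Finset.prod_nonneg (fun i _ => by
        have := hp (m + 3 * i)
        have := hp (m + 3 * i + 2)
        positivity))
      have h8 : (∏ i ∈ Finset.range j, B (m + 3 * i)) ^ 2 =
          ∏ i ∈ Finset.range j, (B (m + 3 * i) * B (m + 3 * i + 2)) := by
        rw [Finset.prod_mul_distrib, h7, sq]
      rw [h8, ← Finset.prod_pow]
      apply Finset.prod_lt_prod_of_nonempty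
      · intro i _
        exact mul_pos (hp _) (hp _)
      · intro i _
        have := mul_pos (hp (m + 3 * i)) (hp (m + 3 * i + 2))
        nlinarith
      · exact ⟨0, by simp; omega⟩

end positive

/-- **Classification.**  For a nonnegative coefficient with least period `k ≥ 2`, every positive
solution is bounded iff the transfer map is contracting along all its cycles or the coefficient is
interlaced with zeros; otherwise every positive solution is unbounded. -/
theorem result :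
    ∀ k : ℕ, 2 ≤ k → ∀ B : ZMod k → ℝ, (∀ m, 0 ≤ B m) →
      (∀ p : ℕ, 1 ≤ p → p < k → ∃ n : ℕ, B ((n + p : ℕ) : ZMod k) ≠ B (n : ZMod k)) →
      ((∀ x : ℕ → ℝ, IsSol B x → BddAbove (Set.range x)) ↔ (Contracting B ∨ Interlaced B)) ∧
      (¬ (Contracting B ∨ Interlaced B) → ∀ x : ℕ → ℝ, IsSol B x → ¬ BddAbove (Set.range x)) ∧
      ((∀ m, 0 < B m) →
        ((∀ x : ℕ → ℝ, IsSol B x → BddAbove (Set.range x)) ↔
          (3 ∣ k → ∀ m : ZMod k, ∏ i ∈ Finset.range (k / 3),
            B (m + 3 * i) / (1 + B (m + 3 * i) * B (m + 3 * i + 2)) < 1))) := by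
  intro k hk B hB hprime
  have : NeZero k := ⟨by omega⟩
  have hne : ∃ m, B m ≠ 0 := by
    by_contra hno
    push Not at hno
    obtain ⟨n, hn⟩ := hprime 1 le_rfl (by omega)
    rw [hno, hno] at hn
    exact hn rfl
  have main : (∀ x : ℕ → ℝ, IsSol B x → BddAbove (Set.range x)) ↔
      (Contracting B ∨ Interlaced B) := by
    constructor
    · intro h
      obtain ⟨x, hx⟩ := exists_sol B
      exact necessity hB hne hx (h x hx)
    · rintro (h | h) x hx
      · exact suff_contracting hB h hx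
      · exact suff_interlaced hB h hx
  refine ⟨main, fun h x hx hb => h (necessity hB hne hx hb), fun hp => ?_⟩
  rw [main]
  exact allpos_iff hp

end Pool.Agent.Results.MP_2c9a54_an.Classification
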